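import Pool.Agent.Work.MP_99d66e_al.Final

set_option autoImplicit false

open Pool.Agent.Work.MP_99d66e_al

/-- There is a box space `X` of connected graphs with geometric property (T) (the Laplacian has a
uniform spectral gap in every unital C*-algebra receiving a unital star homomorphism from the
algebraic Roe algebra, in particular in the maximal uniform Roe algebra) such that for no `c > 0`
is `Δ ^ 2 - c Δ` a sum of squares in the algebraic Roe algebra. -/
theorem Pool.Agent.Results.MP_99d66e_al.GeometricTNotSOS.result :
    ∃ (X : BoxSpace) (Δ : X.Roe), (∀ i, (X.graph i).Connected) ∧ Δ.IsLaplacian ∧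
      Δ.HasSpectralGap ∧ ∀ c : ℝ, 0 < c → ¬ (Δ ^ 2 - (c : ℂ) • Δ).IsSumOfSquares :=
  main'
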